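import Pool.Agent.X13.MC.Growth

/-!
# `M(n) < p^*(n)` for all large `n`
-/

open Finset

namespace Pool.Agent.Results.MP_f0b429_co.EventuallySmaller

/-- The set of integers occurring as a multinomial coefficient `n! / (i_1! ⋯ i_k!)` with `k ≥ 1`,
`i_1, …, i_k ≥ 0` and `i_1 + ⋯ + i_k = n`. -/
def multinomialValues (n : ℕ) : Set ℕ :=
  {m | ∃ k : ℕ, 1 ≤ k ∧ ∃ i : Fin k → ℕ, ∑ j, i j = n ∧
    m = n.factorial / ∏ j, (i j).factorial}

/-- `M(n)`: the number of distinct multinomial coefficients with upper entry `n`. -/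
noncomputable def M (n : ℕ) : ℕ := (multinomialValues n).ncard

/-- `p^*(n)`: the number of partitions of `n` in which every part is at most `6` or a multiple
of `3`. -/
def pstar (n : ℕ) : ℕ :=
  (Finset.univ.filter (fun P : Nat.Partition n => ∀ a ∈ P.parts, a ≤ 6 ∨ 3 ∣ a)).card

lemma sum_le (k : ℕ) (S : Finset ℕ) (hS : S ⊆ Finset.range k) :
    ∑ s ∈ S, 3 * (s + 1) ≤ 3 * k ^ 2 := by
  calc ∑ s ∈ S, 3 * (s + 1) ≤ ∑ s ∈ Finset.range k, 3 * (s + 1) :=
        Finset.sum_le_sum_of_subset hS
    _ ≤ ∑ _s ∈ Finset.range k, 3 * k := by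
        apply Finset.sum_le_sum
        intro s hs
        rw [Finset.mem_range] at hs
        omega
    _ = 3 * k ^ 2 := by
        rw [Finset.sum_const, Finset.card_range, smul_eq_mul]
        ring

/-- The partition with parts `3 (s + 1)`, `s ∈ S`, completed by ones. -/
def part (n k : ℕ) (hk : 3 * k ^ 2 ≤ n) (S : Finset ℕ) (hS : S ⊆ Finset.range k) :
    Nat.Partition n where
  parts := S.val.map (fun s => 3 * (s + 1)) +
    Multiset.replicate (n - ∑ s ∈ S, 3 * (s + 1)) 1
  parts_pos := by
    intro i hi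
    rw [Multiset.mem_add] at hi
    rcases hi with hi | hi
    · rw [Multiset.mem_map] at hi
      obtain ⟨s, _, rfl⟩ := hi
      omega
    · rw [Multiset.eq_of_mem_replicate hi]
      exact one_pos
  parts_sum := by
    have := sum_le k S hS
    rw [Multiset.sum_add, Multiset.sum_replicate, smul_eq_mul, mul_one]
    change ∑ s ∈ S, 3 * (s + 1) + _ = n
    omega

lemma two_pow_le_pstar (n k : ℕ) (hk : 3 * k ^ 2 ≤ n) : 2 ^ k ≤ pstar n := by
  classical
  have h1 : ((Finset.range k).powerset).card = 2 ^ k := by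
    rw [Finset.card_powerset, Finset.card_range]
  rw [← h1, pstar, ← Finset.card_attach]
  apply Finset.card_le_card_of_injOn (fun S => part n k hk S.1 (Finset.mem_powerset.1 S.2))
  · intro S _
    rw [Finset.mem_coe, Finset.mem_filter]
    refine ⟨Finset.mem_univ _, ?_⟩
    intro a ha
    change a ∈ S.1.val.map (fun s => 3 * (s + 1)) +
      Multiset.replicate (n - ∑ s ∈ S.1, 3 * (s + 1)) 1 at ha
    rw [Multiset.mem_add] at ha
    rcases ha with ha | ha
    · rw [Multiset.mem_map] at ha
      obtain ⟨s, _, rfl⟩ := ha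
      right
      exact dvd_mul_right _ _
    · left
      rw [Multiset.eq_of_mem_replicate ha]
      norm_num
  · intro S _ S' _ he
    have hmem : ∀ (T : {x // x ∈ (Finset.range k).powerset}) (s : ℕ),
        3 * (s + 1) ∈ (part n k hk T.1 (Finset.mem_powerset.1 T.2)).parts ↔ s ∈ T.1 := by
      intro T s
      change 3 * (s + 1) ∈ T.1.val.map (fun s => 3 * (s + 1)) +
        Multiset.replicate (n - ∑ s ∈ T.1, 3 * (s + 1)) 1 ↔ _
      rw [Multiset.mem_add]
      constructor
      · rintro (h | h)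
        · rw [Multiset.mem_map] at h
          obtain ⟨t, ht, hts⟩ := h
          have : t = s := by omega
          rw [← this]
          exact ht
        · have := Multiset.eq_of_mem_replicate h
          omega
      · intro h
        left
        rw [Multiset.mem_map]
        exact ⟨s, h, rfl⟩
    apply Subtype.ext
    ext s
    rw [← hmem S s, ← hmem S' s]
    have he' : part n k hk S.1 (Finset.mem_powerset.1 S.2) =
      part n k hk S'.1 (Finset.mem_powerset.1 S'.2) := he
    rw [he']

/-- **`M(n) < p^*(n)` for all sufficiently large `n`.** -/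
theorem result : ∃ N : ℕ, ∀ n : ℕ, N ≤ n → M n < pstar n := by
  obtain ⟨N, hN⟩ := X13.MC.log_M_small (1 / 10) (by norm_num)
  refine ⟨max N 16, fun n hn => ?_⟩
  have h1 : Real.log (M n) ≤ 1 / 10 * Real.sqrt n := hN n (le_trans (le_max_left _ _) hn)
  have hn16 : (16 : ℝ) ≤ n := by exact_mod_cast (le_trans (le_max_right _ _) hn)
  have hMpos : (0 : ℝ) < (M n : ℝ) := by
    have : 0 < M n := X13.MC.M_pos n
    exact_mod_cast this
  set k := Nat.sqrt (n / 3) with hk
  have hk1 : k ^ 2 ≤ n / 3 := Nat.sqrt_le' _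
  have hk2 : n / 3 < (k + 1) ^ 2 := Nat.lt_succ_sqrt' _
  have hk3 : 3 * k ^ 2 ≤ n := by omega
  have hk4 : n < 3 * (k + 1) ^ 2 := by omega
  have h2 := two_pow_le_pstar n k hk3
  have h3 : Real.sqrt n ≤ 2 * ((k : ℝ) + 1) := by
    apply Real.sqrt_le_iff.2
    refine ⟨by positivity, ?_⟩
    have : (n : ℝ) < 3 * ((k : ℝ) + 1) ^ 2 := by exact_mod_cast hk4
    nlinarith
  have h4 : 4 ≤ Real.sqrt n := by
    apply Real.le_sqrt_of_sq_le
    linarith
  have h5 : Real.sqrt n / 4 ≤ k := by linarith
  have h6 : (0.6931471803 : ℝ) < Real.log 2 := Real.log_two_gt_d9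
  have h7 : (M n : ℝ) < (pstar n : ℝ) := by
    calc (M n : ℝ) = Real.exp (Real.log (M n)) := (Real.exp_log hMpos).symm
      _ ≤ Real.exp (1 / 10 * Real.sqrt n) := Real.exp_le_exp.2 h1
      _ < Real.exp (Real.log 2 * k) := by
          apply Real.exp_lt_exp.2
          nlinarith
      _ = (2 : ℝ) ^ k := by
          rw [mul_comm, Real.exp_nat_mul, Real.exp_log (by norm_num)]
      _ ≤ (pstar n : ℝ) := by exact_mod_cast h2
  exact_mod_cast h7

end Pool.Agent.Results.MP_f0b429_co.EventuallySmaller
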